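import Mathlib
import Pool.Agent.Helper50_PN.Stmts

/-!
# Squad PN: module BLK (degrees and independence of the building blocks)
-/

set_option autoImplicit false

open MvPolynomial

namespace Pool.Agent.PN.H52

section deg

variable {V : Type*} {R : Type*}

theorem deg_mono [CommSemiring R] {w : V → ℕ} {d e : ℕ} {P : MvPolynomial V R} (h : Deg w d P)
    (hde : d ≤ e) : Deg w e P := fun s hs => (h s hs).trans hde

theorem deg_mul [CommSemiring R] {w : V → ℕ} {d e : ℕ} {P Q : MvPolynomial V R}
    (hP : Deg w d P) (hQ : Deg w e Q) : Deg w (d + e) (P * Q) := by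
  classical
  intro s hs
  obtain ⟨s₁, h₁, s₂, h₂, rfl⟩ := Finset.mem_add.1 (support_mul P Q hs)
  rw [Finsupp.sum_add_index' (fun v => by simp) (fun v a b => by ring)]
  exact add_le_add (hP s₁ h₁) (hQ s₂ h₂)

theorem deg_C [CommSemiring R] (w : V → ℕ) (c : R) : Deg w 0 (C c : MvPolynomial V R) := by
  classical
  intro s hs
  rw [mem_support_iff, coeff_C] at hs
  split_ifs at hs with h
  · rw [← h]; simp
  · exact absurd rfl hs

theorem deg_one [CommSemiring R] (w : V → ℕ) : Deg w 0 (1 : MvPolynomial V R) := by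
  rw [← C_1]; exact deg_C w 1

theorem deg_X [CommSemiring R] (w : V → ℕ) (v : V) : Deg w (w v) (X v : MvPolynomial V R) := by
  classical
  intro s hs
  rw [mem_support_iff, coeff_X'] at hs
  split_ifs at hs with h
  · rw [← h]; simp
  · exact absurd rfl hs

theorem deg_pow [CommSemiring R] {w : V → ℕ} {d : ℕ} {P : MvPolynomial V R} (h : Deg w d P)
    (n : ℕ) : Deg w (n * d) (P ^ n) := by
  induction n with
  | zero => rw [pow_zero, zero_mul]; exact deg_one w
  | succ n ih =>
    rw [pow_succ, Nat.succ_mul]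
    exact deg_mul ih h

theorem deg_prod [CommSemiring R] {w : V → ℕ} {ι : Type*} (s : Finset ι) (d : ι → ℕ)
    (P : ι → MvPolynomial V R) (h : ∀ i ∈ s, Deg w (d i) (P i)) :
    Deg w (∑ i ∈ s, d i) (∏ i ∈ s, P i) := by
  classical
  induction s using Finset.induction_on with
  | empty => rw [Finset.sum_empty, Finset.prod_empty]; exact deg_one w
  | insert a s ha ih =>
    rw [Finset.sum_insert ha, Finset.prod_insert ha]
    exact deg_mul (h a (Finset.mem_insert_self _ _))
      (ih fun i hi => h i (Finset.mem_insert_of_mem hi))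

theorem deg_sub [CommRing R] {w : V → ℕ} {d : ℕ} {P Q : MvPolynomial V R}
    (hP : Deg w d P) (hQ : Deg w d Q) : Deg w d (P - Q) := by
  classical
  intro s hs
  rcases Finset.mem_union.1 (support_sub V P Q hs) with h | h
  · exact hP s h
  · exact hQ s h

end deg

section blocks

variable {n N k : ℕ}

theorem deg_ff (l l' : Fin n) : Deg (dw n N k l) (if l' = l then N else 0)
    (ff l' : Pol n N k) := by
  unfold ff
  have h := deg_prod (w := dw n N k l) (Finset.univ : Finset (Fin N))
    (fun _ => if l' = l then 1 else 0)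
    (fun j => (X (Sum.inr (l', 0)) - X (Sum.inl (l', j)) : Pol n N k)) ?_
  · refine deg_mono h ?_
    rw [Finset.sum_const, Finset.card_univ, Fintype.card_fin, smul_eq_mul]
    split_ifs <;> simp
  · intro j _
    refine deg_sub (deg_mono (deg_X _ _) ?_) (deg_mono (deg_X _ _) ?_)
    · simp [dw]
    · simp [dw]

theorem wt_ff (l' : Fin n) : Deg (ww n N k) 0 (ff l' : Pol n N k) := by
  unfold ff
  have h := deg_prod (w := ww n N k) (Finset.univ : Finset (Fin N)) (fun _ => 0)
    (fun j => (X (Sum.inr (l', 0)) - X (Sum.inl (l', j)) : Pol n N k)) ?_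
  · refine deg_mono h ?_
    simp
  · intro j _
    refine deg_sub (deg_mono (deg_X _ _) ?_) (deg_mono (deg_X _ _) ?_)
    · simp [ww]
    · simp [ww]

theorem Aof_le_wtof (b : Fin n × Fin (k + 1) → ℕ) (l : Fin n) : Aof b l ≤ wtof b := by
  unfold Aof wtof
  calc ∑ s : Fin k, b (l, s.succ) ≤ ∑ s : Fin k, ((s : ℕ) + 1) * b (l, s.succ) :=
        Finset.sum_le_sum fun s _ => Nat.le_mul_of_pos_left _ (Nat.succ_pos _)
    _ ≤ _ := Finset.single_le_sum (f := fun l => ∑ s : Fin k, ((s : ℕ) + 1) * b (l, s.succ))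
          (fun _ _ => Nat.zero_le _) (Finset.mem_univ l)

theorem deg_blk (m : ℕ) (b : Fin n × Fin (k + 1) → ℕ) (l : Fin n) :
    Deg (dw n N k l) (b (l, 0) + Aof b l + (m - Aof b l) * N)
      (blk (N := N) m Finset.univ b) := by
  unfold blk
  refine deg_mul ?_ ?_
  · have h := deg_prod (w := dw n N k l) (Finset.univ : Finset (Fin n × Fin (k + 1)))
      (fun p => b p * dw n N k l (Sum.inr p))
      (fun p => (X (Sum.inr p) ^ b p : Pol n N k)) fun p _ => deg_pow (deg_X _ _) _
    refine deg_mono h (le_of_eq ?_)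
    rw [Fintype.sum_prod_type, Finset.sum_eq_single l]
    · simp only [dw, Sum.elim_inr, if_true, mul_one]
      rw [Fin.sum_univ_succ]
      rfl
    · intro l' _ hl'
      refine Finset.sum_eq_zero fun s _ => ?_
      simp [dw, hl']
    · intro h'
      exact absurd (Finset.mem_univ l) h'
  · have h := deg_prod (w := dw n N k l) (Finset.univ : Finset (Fin n))
      (fun l' => (m - Aof b l') * (if l' = l then N else 0))
      (fun l' => (ff l' ^ (m - Aof b l') : Pol n N k)) fun l' _ => deg_pow (deg_ff l l') _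
    refine deg_mono h (le_of_eq ?_)
    rw [Finset.sum_eq_single l]
    · simp
    · intro l' _ hl'
      simp [hl']
    · intro h'
      exact absurd (Finset.mem_univ l) h'

theorem wt_blk (m : ℕ) (b : Fin n × Fin (k + 1) → ℕ) :
    Deg (ww n N k) (wtof b) (blk (N := N) m Finset.univ b) := by
  unfold blk
  rw [← add_zero (wtof b)]
  refine deg_mul ?_ ?_
  · have h := deg_prod (w := ww n N k) (Finset.univ : Finset (Fin n × Fin (k + 1)))
      (fun p => b p * ww n N k (Sum.inr p))
      (fun p => (X (Sum.inr p) ^ b p : Pol n N k)) fun p _ => deg_pow (deg_X _ _) _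
    refine deg_mono h (le_of_eq ?_)
    rw [Fintype.sum_prod_type]
    unfold wtof
    refine Finset.sum_congr rfl fun l _ => ?_
    rw [Fin.sum_univ_succ]
    simp only [ww, Sum.elim_inr, Fin.val_zero, mul_zero, zero_add, Fin.val_succ]
    exact Finset.sum_congr rfl fun s _ => mul_comm _ _
  · have h := deg_prod (w := ww n N k) (Finset.univ : Finset (Fin n))
      (fun l' => (m - Aof b l') * 0)
      (fun l' => (ff l' ^ (m - Aof b l') : Pol n N k)) fun l' _ => deg_pow (wt_ff l') _
    refine deg_mono h (le_of_eq ?_)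
    simp

/-- the target: jets over the coordinates of order zero over the parameters -/
abbrev Tar (n N k : ℕ) :=
  MvPolynomial (Fin n × Fin k) (MvPolynomial (Fin n) (MvPolynomial (Fin n × Fin N) ℤ))

/-- the homomorphism which separates the variables -/
noncomputable def sep : Pol n N k →ₐ[ℤ] Tar n N k :=
  aeval (Sum.elim (fun p => C (C (X p)))
    (fun p => Fin.cases (C (X p.1)) (fun s : Fin k => X (p.1, s)) p.2))

theorem sep_inl (p : Fin n × Fin N) : sep (k := k) (X (Sum.inl p)) = C (C (X p)) := by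
  simp [sep]

theorem sep_zero (l : Fin n) : sep (N := N) (k := k) (X (Sum.inr (l, 0))) = C (X l) := by
  simp [sep]

theorem sep_succ (l : Fin n) (s : Fin k) :
    sep (N := N) (X (Sum.inr (l, s.succ))) = X (l, s) := by
  simp [sep]

theorem sep_rename (c : MvPolynomial (Fin n × Fin N) ℤ) :
    sep (k := k) (rename Sum.inl c) = C (C c) := by
  induction c using MvPolynomial.induction_on with
  | C a =>
    rw [rename_C]
    have h1 : (C a : Pol n N k) = algebraMap ℤ _ a := rfl
    rw [h1, AlgHom.commutes]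
    simp
  | add p q hp hq => rw [map_add, map_add, hp, hq, map_add, map_add]
  | mul_X p i hp => rw [map_mul, map_mul, hp, rename_X, sep_inl, map_mul, map_mul]

/-- the image of `ff` -/
noncomputable def gg (l : Fin n) : MvPolynomial (Fin n) (MvPolynomial (Fin n × Fin N) ℤ) :=
  ∏ j : Fin N, (X l - C (X (l, j)))

theorem sep_ff (l : Fin n) : sep (N := N) (k := k) (ff l) = C (gg l) := by
  unfold ff gg
  rw [map_prod, map_prod]
  refine Finset.prod_congr rfl fun j _ => ?_
  rw [map_sub, map_sub, sep_zero, sep_inl]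

theorem gg_ne (l : Fin n) : gg (N := N) l ≠ 0 := by
  unfold gg
  refine Finset.prod_ne_zero_iff.2 fun j _ h => ?_
  have h1 := congrArg (coeff (Finsupp.single l 1)) h
  rw [coeff_sub, coeff_X, if_pos rfl, coeff_C, if_neg (by
    intro h2
    have := DFunLike.congr_fun h2 l
    simp at this), sub_zero, coeff_zero] at h1
  exact one_ne_zero h1

theorem sep_blk (m : ℕ) (b : Fin n × Fin (k + 1) → ℕ) :
    sep (blk (N := N) m Finset.univ b) =
      monomial (Finsupp.equivFunOnFinite.symm fun p : Fin n × Fin k => b (p.1, p.2.succ))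
        (monomial (Finsupp.equivFunOnFinite.symm fun l : Fin n => b (l, 0)) 1 *
          ∏ l, gg l ^ (m - Aof b l)) := by
  unfold blk
  rw [map_mul, map_prod, map_prod, Fintype.prod_prod_type]
  have h1 : ∀ l : Fin n, ∏ s : Fin (k + 1), sep (X (Sum.inr (l, s)) ^ b (l, s) : Pol n N k) =
      C (X l ^ b (l, 0)) * ∏ s : Fin k, X (l, s) ^ b (l, s.succ) := by
    intro l
    rw [Fin.prod_univ_succ]
    simp only [map_pow, sep_zero, sep_succ]
  have h2 : ∀ l : Fin n, sep (ff l ^ (m - Aof b l) : Pol n N k) = C (gg l ^ (m - Aof b l)) := by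
    intro l
    rw [map_pow, sep_ff, map_pow]
  rw [Finset.prod_congr rfl fun l _ => h1 l, Finset.prod_congr rfl fun l _ => h2 l,
    Finset.prod_mul_distrib, ← map_prod, ← map_prod, monomial_eq, monomial_eq, Finsupp.prod_fintype,
    Finsupp.prod_fintype, map_mul, map_mul, Fintype.prod_prod_type]
  · simp only [Finsupp.coe_equivFunOnFinite_symm, C_1, one_mul]
    ring
  · intro i; exact pow_zero _
  · intro i; exact pow_zero _

end blocks

theorem blk_indep (n N k m : ℕ) (U : Finset (Fin n × Fin (k + 1) → ℕ))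
    (c : (Fin n × Fin (k + 1) → ℕ) → MvPolynomial (Fin n × Fin N) ℤ)
    (h : ∑ b ∈ U, rename Sum.inl (c b) * blk m Finset.univ b = (0 : Pol n N k)) :
    ∀ b ∈ U, c b = 0 := by
  classical
  intro b₀ hb₀
  have h1 := congrArg (sep (n := n) (N := N) (k := k)) h
  rw [map_sum, map_zero] at h1
  have h2 := congrArg
    (coeff (Finsupp.equivFunOnFinite.symm fun p : Fin n × Fin k => b₀ (p.1, p.2.succ))) h1
  rw [coeff_sum, coeff_zero] at h2
  have h3 : ∀ b ∈ U, coeff (Finsupp.equivFunOnFinite.symm fun p : Fin n × Fin k =>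
        b₀ (p.1, p.2.succ)) (sep (rename Sum.inl (c b) * blk m Finset.univ b : Pol n N k)) =
      (if (∀ p : Fin n × Fin k, b (p.1, p.2.succ) = b₀ (p.1, p.2.succ)) then
        monomial (Finsupp.equivFunOnFinite.symm fun l : Fin n => b (l, 0)) (c b) else 0) *
        ∏ l, gg l ^ (m - Aof b₀ l) := by
    intro b _
    rw [map_mul, sep_rename, sep_blk, coeff_C_mul, coeff_monomial]
    by_cases hb : ∀ p : Fin n × Fin k, b (p.1, p.2.succ) = b₀ (p.1, p.2.succ)
    · have h4 : (Finsupp.equivFunOnFinite.symm fun p : Fin n × Fin k => b (p.1, p.2.succ)) =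
          Finsupp.equivFunOnFinite.symm fun p : Fin n × Fin k => b₀ (p.1, p.2.succ) := by
        ext p
        exact hb p
      have h5 : ∀ l, Aof b l = Aof b₀ l := fun l => Finset.sum_congr rfl fun s _ => hb (l, s)
      rw [if_pos h4, if_pos hb, ← mul_assoc, C_mul_monomial, mul_one]
      congr 1
      exact Finset.prod_congr rfl fun l _ => by rw [h5 l]
    · rw [if_neg hb, if_neg, mul_zero, zero_mul]
      intro h4
      apply hb
      intro p
      exact DFunLike.congr_fun h4 p
  rw [Finset.sum_congr rfl h3, ← Finset.sum_mul] at h2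
  have h6 : ∏ l, gg (N := N) l ^ (m - Aof b₀ l) ≠ 0 :=
    Finset.prod_ne_zero_iff.2 fun l _ => pow_ne_zero _ (gg_ne l)
  have h7 := (mul_eq_zero.1 h2).resolve_right h6
  have h8 := congrArg (coeff (Finsupp.equivFunOnFinite.symm fun l : Fin n => b₀ (l, 0))) h7
  rw [coeff_sum, coeff_zero, Finset.sum_eq_single b₀] at h8
  · rw [if_pos (fun _ => rfl), coeff_monomial, if_pos rfl] at h8
    exact h8
  · intro b _ hb
    by_cases h9 : ∀ p : Fin n × Fin k, b (p.1, p.2.succ) = b₀ (p.1, p.2.succ)
    · rw [if_pos h9, coeff_monomial, if_neg]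
      intro h10
      apply hb
      funext ⟨l, s⟩
      refine Fin.cases ?_ (fun s => ?_) s
      · exact DFunLike.congr_fun h10 l
      · exact h9 (l, s)
    · rw [if_neg h9, coeff_zero]
  · intro h9
    exact absurd hb₀ h9

theorem blk_main : BlkStmt := by
  intro n N k m δ B hδ hB hBN
  refine ⟨?_, fun c h => blk_indep n N k m _ c h⟩
  intro b hb
  unfold US at hb
  rw [Finset.mem_filter] at hb
  obtain ⟨_, hw, hb⟩ := hb
  refine ⟨?_, ?_⟩
  · intro l
    refine deg_mono (deg_blk m b l) ?_
    have h1 := hb l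
    have h2 := Aof_le_wtof b l
    rw [hw] at h2
    have h3 : δ < Aof b l := by
      by_contra h4
      rw [Nat.sub_eq_zero_of_le (not_lt.1 h4), mul_zero] at h1
      omega
    obtain ⟨t, ht⟩ : ∃ t, Aof b l = δ + t := ⟨Aof b l - δ, by omega⟩
    obtain ⟨r, hr⟩ : ∃ r, m = Aof b l + r := ⟨m - Aof b l, by omega⟩
    rw [ht, Nat.add_sub_cancel_left] at h1
    have h5 : m - δ = t + r := by omega
    have h6 : m - Aof b l = r := by omega
    rw [h6, h5]
    rw [h5] at hBN
    have h7 : N * (t + r) = N * t + r * N := by ring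
    rw [h7] at hBN ⊢
    omega
  · have h := wt_blk (N := N) m b
    rw [hw] at h
    exact h

end Pool.Agent.PN.H52
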