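import Mathlib
import Pool.Agent.Helper50_PN.Stmts

/-!
# Squad PN: module NUB (the number of the unknowns)
-/

set_option autoImplicit false

open MvPolynomial

namespace Pool.Agent.PN.H52

/-- the factors of `UU` -/
noncomputable def ffac {n k' : ℕ} (p : Fin n × Fin (k' + 1)) : PowerSeries ℕ :=
  Fin.cases VV (fun s : Fin k' => geo ((s : ℕ) + 1)) p.2

theorem UU_eq (n k' : ℕ) : UU n (k' + 1) = ∏ p : Fin n × Fin (k' + 1), ffac p := by
  unfold UU GG
  rw [Fintype.prod_prod_type]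
  simp only [ffac, Fin.prod_univ_succ, Fin.cases_zero, Fin.cases_succ]
  rw [Finset.prod_const, Finset.card_univ, Fintype.card_fin]
  rfl

/-- the exponent attached to the index `g` -/
def toA {n k' : ℕ} (δ : ℕ) (g : Fin n × Fin (k' + 1) → ℕ) : Fin n × Fin (k' + 1) → ℕ :=
  fun p => Fin.cases (δ + g (p.1, 0) - ∑ s : Fin k', g (p.1, s.succ) / ((s : ℕ) + 1))
    (fun s : Fin k' => g (p.1, s.succ) / ((s : ℕ) + 1)) p.2

@[simp] theorem toA_zero {n k' : ℕ} (δ : ℕ) (g : Fin n × Fin (k' + 1) → ℕ) (l : Fin n) :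
    toA δ g (l, 0) = δ + g (l, 0) - ∑ s : Fin k', g (l, s.succ) / ((s : ℕ) + 1) := rfl

@[simp] theorem toA_succ {n k' : ℕ} (δ : ℕ) (g : Fin n × Fin (k' + 1) → ℕ) (l : Fin n)
    (s : Fin k') : toA δ g (l, s.succ) = g (l, s.succ) / ((s : ℕ) + 1) := rfl

theorem sum_le {n k' : ℕ} {σ : ℕ} (g : Fin n × Fin (k' + 1) → ℕ) (hg : ∑ p, g p = σ) (l : Fin n) :
    ∑ s : Fin k', g (l, s.succ) / ((s : ℕ) + 1) ≤ σ := by
  calc ∑ s : Fin k', g (l, s.succ) / ((s : ℕ) + 1) ≤ ∑ s : Fin k', g (l, s.succ) :=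
        Finset.sum_le_sum fun s _ => Nat.div_le_self _ _
    _ ≤ ∑ s : Fin (k' + 1), g (l, s) := by
        rw [Fin.sum_univ_succ]; exact Nat.le_add_left _ _
    _ ≤ ∑ l : Fin n, ∑ s : Fin (k' + 1), g (l, s) :=
        Finset.single_le_sum (f := fun l => ∑ s : Fin (k' + 1), g (l, s))
          (fun _ _ => Nat.zero_le _) (Finset.mem_univ l)
    _ = σ := by rw [← hg, Fintype.sum_prod_type]

theorem jA_toA {n k' : ℕ} {σ δ : ℕ} (hσ : σ ≤ δ) (g : Fin n × Fin (k' + 1) → ℕ)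
    (hg : ∑ p, g p = σ) (l : Fin n) : jA (toA δ g) l = δ + g (l, 0) := by
  have h := sum_le g hg l
  unfold jA
  rw [Fin.sum_univ_succ, toA_zero]
  simp only [toA_succ]
  omega

theorem jwt_toA {n k' : ℕ} {σ δ : ℕ} (hσ : σ ≤ δ) (g : Fin n × Fin (k' + 1) → ℕ)
    (hg : ∑ p, g p = σ) (hdvd : ∀ (l : Fin n) (s : Fin k'), (s : ℕ) + 1 ∣ g (l, s.succ)) :
    jwt (toA δ g) = n * δ + σ := by
  have h1 : ∀ l : Fin n, ∑ s : Fin (k' + 1), ((s : ℕ) + 1) * toA δ g (l, s) =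
      δ + ∑ s : Fin (k' + 1), g (l, s) := by
    intro l
    have h2 := jA_toA hσ g hg l
    unfold jA at h2
    have h3 : ∀ s : Fin (k' + 1), ((s : ℕ) + 1) * toA δ g (l, s) =
        toA δ g (l, s) + (s : ℕ) * toA δ g (l, s) := fun s => by ring
    rw [Finset.sum_congr rfl fun s _ => h3 s, Finset.sum_add_distrib, h2, Fin.sum_univ_succ
      (f := fun s : Fin (k' + 1) => (s : ℕ) * toA δ g (l, s)), Fin.sum_univ_succ
      (f := fun s : Fin (k' + 1) => g (l, s))]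
    have h4 : ∑ i : Fin k', ((i.succ : Fin (k' + 1)) : ℕ) * toA δ g (l, i.succ) =
        ∑ i : Fin k', g (l, i.succ) := by
      refine Finset.sum_congr rfl fun i _ => ?_
      rw [toA_succ, Fin.val_succ]
      exact Nat.mul_div_cancel' (hdvd l i)
    rw [h4]
    simp only [Fin.val_zero, zero_mul, zero_add]
    ring
  unfold jwt
  rw [Finset.sum_congr rfl fun l _ => h1 l, Finset.sum_add_distrib, Finset.sum_const,
    Finset.card_univ, Fintype.card_fin, smul_eq_mul, ← hg, Fintype.sum_prod_type]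

theorem nub : NubStmt := by
  intro n k σ δ hk hσ
  obtain ⟨k', rfl⟩ : ∃ k', k = k' + 1 := ⟨k - 1, by omega⟩
  classical
  rw [UU_eq, PowerSeries.coeff_prod]
  set A : Finset ((Fin n × Fin (k' + 1)) →₀ ℕ) := Finset.finsuppAntidiag Finset.univ σ with hA
  set A' := A.filter fun g => ∀ (l : Fin n) (s : Fin k'), (s : ℕ) + 1 ∣ g (l, s.succ) with hA'
  have hsum : ∀ g ∈ A, ∑ p, g p = σ := by
    intro g hg
    rw [hA, Finset.mem_finsuppAntidiag] at hg
    exact hg.1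
  have hprod : ∀ g : (Fin n × Fin (k' + 1)) →₀ ℕ,
      ∏ p : Fin n × Fin (k' + 1), PowerSeries.coeff (g p) (ffac p) =
      if (∀ (l : Fin n) (s : Fin k'), (s : ℕ) + 1 ∣ g (l, s.succ)) then ∏ l : Fin n, g (l, 0)
      else 0 := by
    intro g
    rw [Fintype.prod_prod_type]
    have h1 : ∀ l : Fin n, ∏ s : Fin (k' + 1), PowerSeries.coeff (g (l, s)) (ffac (l, s)) =
        g (l, 0) * ∏ s : Fin k', if (s : ℕ) + 1 ∣ g (l, s.succ) then 1 else 0 := by
      intro l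
      rw [Fin.prod_univ_succ]
      simp only [ffac, Fin.cases_zero, Fin.cases_succ, VV, geo, PowerSeries.coeff_mk]
    rw [Finset.prod_congr rfl fun l _ => h1 l, Finset.prod_mul_distrib]
    split_ifs with h
    · rw [Finset.prod_eq_one (s := (Finset.univ : Finset (Fin n)))
        (f := fun l => ∏ s : Fin k', if (s : ℕ) + 1 ∣ g (l, s.succ) then 1 else 0), mul_one]
      intro l _
      exact Finset.prod_eq_one fun s _ => if_pos (h l s)
    · push Not at h
      obtain ⟨l, s, hs⟩ := h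
      rw [Finset.prod_eq_zero (i := l) (Finset.mem_univ l)
        (f := fun l => ∏ s : Fin k', if (s : ℕ) + 1 ∣ g (l, s.succ) then 1 else 0), mul_zero]
      exact Finset.prod_eq_zero (Finset.mem_univ s) (if_neg hs)
  rw [Finset.sum_congr rfl fun g _ => hprod g, ← Finset.sum_filter]
  unfold uu
  have h2 : ∀ g ∈ A', ∏ l : Fin n, g (l, 0) = ∏ l : Fin n, (jA (toA δ ⇑g) l - δ) := by
    intro g hg
    refine Finset.prod_congr rfl fun l _ => ?_
    rw [jA_toA hσ g (hsum g (Finset.mem_filter.1 hg).1) l, Nat.add_sub_cancel_left]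
  rw [Finset.sum_congr rfl h2]
  have hinj : Set.InjOn (fun g : (Fin n × Fin (k' + 1)) →₀ ℕ => toA δ ⇑g) A' := by
    intro g hg g' hg' heq
    rw [Finset.mem_coe, hA', Finset.mem_filter] at hg hg'
    simp only at heq
    ext ⟨l, s⟩
    refine Fin.cases ?_ (fun s => ?_) s
    · have h3 := jA_toA hσ g (hsum g hg.1) l
      have h4 := jA_toA hσ g' (hsum g' hg'.1) l
      rw [heq] at h3
      omega
    · have h3 := congrFun heq (l, s.succ)
      rw [toA_succ, toA_succ] at h3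
      rw [← Nat.div_mul_cancel (hg.2 l s), ← Nat.div_mul_cancel (hg'.2 l s), h3]
  rw [← Finset.sum_image (f := fun α => ∏ l : Fin n, (jA α l - δ)) hinj]
  refine Finset.sum_le_sum_of_subset ?_
  intro α hα
  obtain ⟨g, hg, rfl⟩ := Finset.mem_image.1 hα
  rw [hA', Finset.mem_filter] at hg
  have h5 := jwt_toA hσ g (hsum g hg.1) hg.2
  unfold JS
  rw [Finset.mem_filter]
  refine ⟨?_, h5⟩
  rw [Fintype.mem_piFinset]
  rintro ⟨l, s⟩
  rw [Finset.mem_range, ← h5]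
  have h6 : toA δ (⇑g) (l, s) ≤ ((s : ℕ) + 1) * toA δ (⇑g) (l, s) :=
    Nat.le_mul_of_pos_left _ (Nat.succ_pos _)
  have h7 : ((s : ℕ) + 1) * toA δ (⇑g) (l, s) ≤
      ∑ s : Fin (k' + 1), ((s : ℕ) + 1) * toA δ (⇑g) (l, s) :=
    Finset.single_le_sum (f := fun s : Fin (k' + 1) => ((s : ℕ) + 1) * toA δ (⇑g) (l, s))
      (fun _ _ => Nat.zero_le _) (Finset.mem_univ s)
  have h8 : ∑ s : Fin (k' + 1), ((s : ℕ) + 1) * toA δ (⇑g) (l, s) ≤ jwt (toA δ ⇑g) :=
    Finset.single_le_sum (f := fun l => ∑ s : Fin (k' + 1), ((s : ℕ) + 1) * toA δ (⇑g) (l, s))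
      (fun _ _ => Nat.zero_le _) (Finset.mem_univ l)
  omega

end Pool.Agent.PN.H52
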